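import Mathlib
import Pool.Agent.H.MP_8652de_gt.A

open Set Filter Topology

namespace Pool.Agent.Results.MP_8652de_gt.NotHurewicz

/-- the space has a base of clopen sets, i.e. small inductive dimension at most `0` -/
def IndLeZero (X : Type) (t : TopologicalSpace X) : Prop :=
  ∀ (p : X) (O : Set X), @IsOpen X t O → p ∈ O → ∃ U, @IsClopen X t U ∧ p ∈ U ∧ U ⊆ O

/-- Hurewicz space -/
def Hurewicz (X : Type) (t : TopologicalSpace X) : Prop :=
  ∀ U : ℕ → Set (Set X), (∀ n, (∀ W ∈ U n, @IsOpen X t W) ∧ ⋃₀ U n = univ) →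
    ∃ V : ℕ → Set (Set X), (∀ n, (V n).Finite ∧ V n ⊆ U n) ∧ ∀ x, ∀ᶠ n in atTop, x ∈ ⋃₀ V n

theorem result (X : Type) (t₁ t₂ : TopologicalSpace X)
    (h : ∀ U : Set X, @IsOpen X t₂ U → @IsOpen X t₁ U) (hc : @CompactSpace X t₂)
    (hs : @T2Space X t₂) (h₁ : IndLeZero X t₁) (h₂ : ¬ IndLeZero X t₂) : ¬ Hurewicz X t₁ := by
  intro hH
  have := @Pool.Agent.H.MP_8652de_gt.main X X t₁ t₂ hc hs id hH (continuous_id_iff_le.2 h)
    Function.bijective_id h₁
  exact h₂ fun p O hO hp => @compact_exists_isClopen_in_isOpen X t₂ hs hc this p O hO hp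

end Pool.Agent.Results.MP_8652de_gt.NotHurewicz
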